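import Mathlib

/-!
# Contact classes in a two-parameter family of complete intersections in characteristic `2`

`F` is a field of characteristic `2` and
`f_(a,b) = (x^3 + y^5 + a y^6 + b y^8, x^2 y + x y^2)`. All the `f_(a,b)` are contact equivalent to
each other.

Proof. Let `t = a + c` and let `φ` be the automorphism `x ↦ x + t (x y + y^4)`, `y ↦ y`. If `I` is
the ideal of `f_(c,d)`, then `y^7 ∈ 𝔪 I`, and `φ (f_(a,b))_i - (f_(c,d))_i ∈ 𝔪 I` for `i = 1, 2`.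
-/

set_option autoImplicit false

namespace Pool.Agent.Results.MP_3155f9_ag.AllEquivalent

open MvPowerSeries

variable {F : Type*} [Field F]

/-- Contact equivalence of pairs of formal power series in two variables: `g = U · φ(f)` with
`U ∈ GL(2, F[[x, y]])` and an automorphism `φ` of the `F`-algebra `F[[x, y]]`. -/
def ContactEquivalent (f g : Fin 2 → MvPowerSeries (Fin 2) F) : Prop :=
  ∃ (U : GL (Fin 2) (MvPowerSeries (Fin 2) F))
    (φ : MvPowerSeries (Fin 2) F ≃ₐ[F] MvPowerSeries (Fin 2) F),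
    g = U.1.mulVec (fun i => φ (f i))

/-- The pair `f_(a,b) = (x^3 + y^5 + a y^6 + b y^8, x^2 y + x y^2)`, where `x = X 0`, `y = X 1`. -/
noncomputable def fam (a b : F) : Fin 2 → MvPowerSeries (Fin 2) F :=
  ![X 0 ^ 3 + X 1 ^ 5 + C a * X 1 ^ 6 + C b * X 1 ^ 8, X 0 ^ 2 * X 1 + X 0 * X 1 ^ 2]

section identities

variable {R : Type*} [CommRing R]

theorem id7 (h2 : (2 : R) = 0) (x y c d : R) :
    (1 + c * y + d * y ^ 3) * (1 + y ^ 2 * (1 + c * y + d * y ^ 3)) * y ^ 7 =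
      (y * (x + y) + (1 + c * y + d * y ^ 3) * y ^ 4) *
        (x ^ 3 + y ^ 5 + c * y ^ 6 + d * y ^ 8) +
      (x ^ 2 + (1 + c * y + d * y ^ 3) * y ^ 3 * (x + y)) * (x ^ 2 * y + x * y ^ 2) := by
  linear_combination (-1*x^4*y - 1*x^3*y^7*d - 1*x^3*y^5*c - 1*x^3*y^4 - 1*x^3*y^2 - 1*x^2*y^8*d - 1*x^2*y^6*c - 1*x^2*y^5 - 1*x*y^9*d - 1*x*y^7*c - 1*x*y^6) * h2

theorem idTwo (h2 : (2 : R) = 0) (x y a c d α β : R)
    (h7 : y ^ 7 = α * (x ^ 3 + y ^ 5 + c * y ^ 6 + d * y ^ 8) + β * (x ^ 2 * y + x * y ^ 2)) :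
    (x + (a + c) * (x * y + y ^ 4)) ^ 2 * y + (x + (a + c) * (x * y + y ^ 4)) * y ^ 2 =
      ((a + c) * y + (a + c) ^ 2 * y ^ 2 +
        ((a + c) * (c + d * y ^ 2) + (a + c) ^ 2 * (1 + c * y + d * y ^ 3 + y ^ 2)) * α) *
          (x ^ 3 + y ^ 5 + c * y ^ 6 + d * y ^ 8) +
      (1 + ((a + c) * (x + y) + (a + c) ^ 2 * x * y) +
        ((a + c) * (c + d * y ^ 2) + (a + c) ^ 2 * (1 + c * y + d * y ^ 3 + y ^ 2)) * β) *
          (x ^ 2 * y + x * y ^ 2) := by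
  linear_combination ((a + c) * (c + d * y ^ 2) +
    (a + c) ^ 2 * (1 + c * y + d * y ^ 3 + y ^ 2)) * h7 + (-1*x^3*y^2*a^2 - 2*x^3*y^2*a*c - 1*x^3*y^2*c^2 - 1*x^3*y*a - 1*x^3*y*c + x*y^6*a^2 + 2*x*y^6*a*c + x*y^6*c^2 + x*y^5*a + x*y^5*c - 1*y^10*a^2*d - 2*y^10*a*c*d - 1*y^10*c^2*d - 1*y^9*a*d - 1*y^9*c*d - 1*y^8*a^2*c - 2*y^8*a*c^2 - 1*y^8*c^3 - 1*y^7*a^2 - 3*y^7*a*c - 2*y^7*c^2) * h2

theorem idOne (h2 : (2 : R) = 0) (x y a b c d α β : R)
    (h7 : y ^ 7 = α * (x ^ 3 + y ^ 5 + c * y ^ 6 + d * y ^ 8) + β * (x ^ 2 * y + x * y ^ 2)) :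
    (x + (a + c) * (x * y + y ^ 4)) ^ 3 + y ^ 5 + a * y ^ 6 + b * y ^ 8 =
      (1 + ((a + c) * (y + y ^ 3) + (a + c) ^ 2 * y ^ 2 + (a + c) ^ 3 * (y ^ 3 + y ^ 5)) +
        ((a + c) * (c + d * y ^ 2) + (a + c) * (1 + c * y + d * y ^ 3) * y +
          (a + c) ^ 2 * (1 + c * y + d * y ^ 3 + x * y) +
          (a + c) ^ 3 * ((1 + c * y + d * y ^ 3) * y + (1 + c * y + d * y ^ 3) * y ^ 3 +
            x * y ^ 2 + y ^ 5) + (b + d) * y) * α) *
          (x ^ 3 + y ^ 5 + c * y ^ 6 + d * y ^ 8) +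
      (((a + c) * x * y ^ 2 + (a + c) ^ 3 * x * y ^ 4) +
        ((a + c) * (c + d * y ^ 2) + (a + c) * (1 + c * y + d * y ^ 3) * y +
          (a + c) ^ 2 * (1 + c * y + d * y ^ 3 + x * y) +
          (a + c) ^ 3 * ((1 + c * y + d * y ^ 3) * y + (1 + c * y + d * y ^ 3) * y ^ 3 +
            x * y ^ 2 + y ^ 5) + (b + d) * y) * β) *
          (x ^ 2 * y + x * y ^ 2) := by
  linear_combination ((a + c) * (c + d * y ^ 2) + (a + c) * (1 + c * y + d * y ^ 3) * y +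
          (a + c) ^ 2 * (1 + c * y + d * y ^ 3 + x * y) +
          (a + c) ^ 3 * ((1 + c * y + d * y ^ 3) * y + (1 + c * y + d * y ^ 3) * y ^ 3 +
            x * y ^ 2 + y ^ 5) + (b + d) * y) * h7 + (-1*x^3*y^5*a^3 - 3*x^3*y^5*a^2*c - 3*x^3*y^5*a*c^2 - 1*x^3*y^5*c^3 - 1*x^3*y^3*a - 1*x^3*y^3*c + x^3*y^2*a^2 + 2*x^3*y^2*a*c + x^3*y^2*c^2 + x^3*y*a + x^3*y*c + x^2*y^6*a^3 + 3*x^2*y^6*a^2*c + 3*x^2*y^6*a*c^2 + x^2*y^6*c^3 + 3*x^2*y^5*a^2 + 6*x^2*y^5*a*c + 3*x^2*y^5*c^2 + x^2*y^4*a + x^2*y^4*c + x*y^9*a^3 + 3*x*y^9*a^2*c + 3*x*y^9*a*c^2 + x*y^9*c^3 + x*y^8*a^2 + 2*x*y^8*a*c + x*y^8*c^2 - 1*y^13*a^3*d - 3*y^13*a^2*c*d - 3*y^13*a*c^2*d - 1*y^13*c^3*d - 1*y^11*a^3*c - 1*y^11*a^3*d - 3*y^11*a^2*c^2 - 3*y^11*a^2*c*d - 3*y^11*a*c^3 - 3*y^11*a*c^2*d - 1*y^11*a*d - 1*y^11*c^4 - 1*y^11*c^3*d - 1*y^11*c*d - 1*y^10*a^3 - 3*y^10*a^2*c - 1*y^10*a^2*d - 3*y^10*a*c^2 - 2*y^10*a*c*d - 1*y^10*c^3 - 1*y^10*c^2*d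 - 1*y^9*a^3*c - 3*y^9*a^2*c^2 - 3*y^9*a*c^3 - 1*y^9*a*c - 1*y^9*a*d - 1*y^9*c^4 - 1*y^9*c^2 - 1*y^9*c*d - 1*y^8*a^3 - 4*y^8*a^2*c - 5*y^8*a*c^2 - 1*y^8*a - 2*y^8*c^3 - 1*y^8*c - 1*y^8*d - 1*y^7*a^2 - 3*y^7*a*c - 2*y^7*c^2 - 1*y^6*c) * h2

end identities

section automorphism

/-- The unit `1 + t y`. -/
noncomputable def un (t : F) : MvPowerSeries (Fin 2) F := 1 + C t * X 1

theorem un_mul_inv (t : F) : un t * (un t)⁻¹ = 1 :=
  MvPowerSeries.mul_inv_cancel _ (by simp [un])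

/-- The images of `x` and `y` under `φ`. -/
noncomputable def fwd (t : F) : Fin 2 → MvPowerSeries (Fin 2) F :=
  ![un t * X 0 + C t * X 1 ^ 4, X 1]

/-- The images of `x` and `y` under the inverse of `φ`. -/
noncomputable def bwd (t : F) : Fin 2 → MvPowerSeries (Fin 2) F :=
  ![(un t)⁻¹ * (X 0 - C t * X 1 ^ 4), X 1]

theorem hasSubst_fwd (t : F) : HasSubst (fwd t) := by
  apply hasSubst_of_constantCoeff_zero
  intro s
  fin_cases s <;> simp [fwd]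

theorem hasSubst_bwd (t : F) : HasSubst (bwd t) := by
  apply hasSubst_of_constantCoeff_zero
  intro s
  fin_cases s <;> simp [bwd]

theorem algHom_C (ψ : MvPowerSeries (Fin 2) F →ₐ[F] MvPowerSeries (Fin 2) F) (t : F) :
    ψ (C t) = C t := by
  have := ψ.commutes t
  rwa [MvPowerSeries.algebraMap_apply, Algebra.algebraMap_self_apply] at this

theorem map_un (ψ : MvPowerSeries (Fin 2) F →ₐ[F] MvPowerSeries (Fin 2) F) (t : F)
    (h : ψ (X 1) = X 1) : ψ (un t) = un t := by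
  simp only [un, map_add, map_one, map_mul, h, algHom_C]

theorem map_un_inv (ψ : MvPowerSeries (Fin 2) F →ₐ[F] MvPowerSeries (Fin 2) F) (t : F)
    (h : ψ (X 1) = X 1) : ψ (un t)⁻¹ = (un t)⁻¹ := by
  have h1 : ψ (un t) * ψ (un t)⁻¹ = 1 := by rw [← map_mul, un_mul_inv, map_one]
  rw [map_un ψ t h] at h1
  calc ψ (un t)⁻¹ = (un t * (un t)⁻¹) * ψ (un t)⁻¹ := by rw [un_mul_inv, one_mul]
    _ = (un t)⁻¹ * (un t * ψ (un t)⁻¹) := by ring
    _ = (un t)⁻¹ := by rw [h1, mul_one]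

/-- The substitution `φ`. -/
noncomputable def fwdHom (t : F) : MvPowerSeries (Fin 2) F →ₐ[F] MvPowerSeries (Fin 2) F :=
  substAlgHom (R := F) (hasSubst_fwd t)

/-- The inverse of the substitution `φ`. -/
noncomputable def bwdHom (t : F) : MvPowerSeries (Fin 2) F →ₐ[F] MvPowerSeries (Fin 2) F :=
  substAlgHom (R := F) (hasSubst_bwd t)

theorem fwdHom_X0 (t : F) : fwdHom t (X 0) = un t * X 0 + C t * X 1 ^ 4 := by
  rw [fwdHom, substAlgHom_X]; rfl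

theorem fwdHom_X1 (t : F) : fwdHom t (X 1) = X 1 := by
  rw [fwdHom, substAlgHom_X]; rfl

theorem bwdHom_X0 (t : F) : bwdHom t (X 0) = (un t)⁻¹ * (X 0 - C t * X 1 ^ 4) := by
  rw [bwdHom, substAlgHom_X]; rfl

theorem bwdHom_X1 (t : F) : bwdHom t (X 1) = X 1 := by
  rw [bwdHom, substAlgHom_X]; rfl

theorem fwd_bwd (t : F) (f : MvPowerSeries (Fin 2) F) : fwdHom t (bwdHom t f) = f := by
  have h := subst_comp_subst_apply (R := F) (hasSubst_bwd t) (hasSubst_fwd t) f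
  rw [← substAlgHom_apply (hasSubst_bwd t), ← substAlgHom_apply (hasSubst_fwd t)] at h
  have : (fun s => subst (fwd t) (bwd t s)) = X := by
    funext s
    rw [← substAlgHom_apply (hasSubst_fwd t)]
    fin_cases s
    · change fwdHom t ((un t)⁻¹ * (X 0 - C t * X 1 ^ 4)) = X 0
      rw [map_mul, map_sub, map_mul, map_pow, fwdHom_X0, fwdHom_X1, algHom_C,
        map_un_inv _ t (fwdHom_X1 t)]
      calc (un t)⁻¹ * (un t * X 0 + C t * X 1 ^ 4 - C t * X 1 ^ 4)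
          = (un t * (un t)⁻¹) * X 0 := by ring
        _ = X 0 := by rw [un_mul_inv, one_mul]
    · exact fwdHom_X1 t
  rw [this, subst_self] at h
  exact h

theorem bwd_fwd (t : F) (f : MvPowerSeries (Fin 2) F) : bwdHom t (fwdHom t f) = f := by
  have h := subst_comp_subst_apply (R := F) (hasSubst_fwd t) (hasSubst_bwd t) f
  rw [← substAlgHom_apply (hasSubst_bwd t), ← substAlgHom_apply (hasSubst_fwd t)] at h
  have : (fun s => subst (bwd t) (fwd t s)) = X := by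
    funext s
    rw [← substAlgHom_apply (hasSubst_bwd t)]
    fin_cases s
    · change bwdHom t (un t * X 0 + C t * X 1 ^ 4) = X 0
      rw [map_add, map_mul, map_mul, map_pow, bwdHom_X0, bwdHom_X1, algHom_C,
        map_un _ t (bwdHom_X1 t)]
      calc un t * ((un t)⁻¹ * (X 0 - C t * X 1 ^ 4)) + C t * X 1 ^ 4
          = (un t * (un t)⁻¹) * (X 0 - C t * X 1 ^ 4) + C t * X 1 ^ 4 := by ring
        _ = X 0 := by rw [un_mul_inv, one_mul]; ring
    · exact bwdHom_X1 t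
  rw [this, subst_self] at h
  exact h

/-- The automorphism `φ`: `x ↦ (1 + t y) x + t y^4`, `y ↦ y`. -/
noncomputable def aut (t : F) : MvPowerSeries (Fin 2) F ≃ₐ[F] MvPowerSeries (Fin 2) F :=
  AlgEquiv.ofAlgHom (fwdHom t) (bwdHom t) (AlgHom.ext (fwd_bwd t)) (AlgHom.ext (bwd_fwd t))

theorem aut_X0 (t : F) : aut t (X 0) = X 0 + C t * (X 0 * X 1 + X 1 ^ 4) := by
  change fwdHom t (X 0) = _
  rw [fwdHom_X0, un]
  ring

theorem aut_X1 (t : F) : aut t (X 1) = X 1 := fwdHom_X1 t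

theorem aut_C (t s : F) : aut t (C s) = C s := algHom_C (aut t).toAlgHom s

end automorphism

/-- **All the pairs `f_(a,b)` are contact equivalent.** Let `F` be a field of characteristic `2`.
For all `a, b, c, d ∈ F` the pairs `f_(a,b)` and `f_(c,d)` are contact equivalent. -/
theorem result (F : Type*) [Field F] [CharP F 2] (a b c d : F) :
    ContactEquivalent (fam a b) (fam c d) := by
  have h2 : (2 : MvPowerSeries (Fin 2) F) = 0 := by
    have : (2 : F) = 0 := CharP.cast_eq_zero F 2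
    rw [← map_ofNat (C (σ := Fin 2) (R := F)) 2, this, map_zero]
  set x : MvPowerSeries (Fin 2) F := X 0 with hx
  set y : MvPowerSeries (Fin 2) F := X 1 with hy
  set v : MvPowerSeries (Fin 2) F := 1 + C c * y + C d * y ^ 3 with hv
  have hx0 : constantCoeff x = 0 := constantCoeff_X 0
  have hy0 : constantCoeff y = 0 := constantCoeff_X 1
  have hw : v * (1 + y ^ 2 * v) * (v * (1 + y ^ 2 * v))⁻¹ = 1 :=
    MvPowerSeries.mul_inv_cancel _ (by simp [hv, hy0])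
  set w := (v * (1 + y ^ 2 * v))⁻¹ with hwdef
  set α := w * (y * (x + y) + v * y ^ 4) with hα
  set β := w * (x ^ 2 + v * y ^ 3 * (x + y)) with hβ
  have h7 : y ^ 7 = α * (x ^ 3 + y ^ 5 + C c * y ^ 6 + C d * y ^ 8) +
      β * (x ^ 2 * y + x * y ^ 2) := by
    have := id7 h2 x y (C c) (C d)
    rw [← hv] at this
    calc y ^ 7 = (v * (1 + y ^ 2 * v) * w) * y ^ 7 := by rw [hw, one_mul]
      _ = w * (v * (1 + y ^ 2 * v) * y ^ 7) := by ring
      _ = _ := by rw [this, hα, hβ]; ring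
  have hα0 : constantCoeff α = 0 := by simp [hα, hx0, hy0]
  have hβ0 : constantCoeff β = 0 := by simp [hβ, hx0, hy0]
  have e1 := idOne h2 x y (C a) (C b) (C c) (C d) α β h7
  have e2 := idTwo h2 x y (C a) (C c) (C d) α β h7
  -- the matrix
  set M11 := (1 + ((C a + C c) * (y + y ^ 3) + (C a + C c) ^ 2 * y ^ 2 +
        (C a + C c) ^ 3 * (y ^ 3 + y ^ 5)) +
        ((C a + C c) * (C c + C d * y ^ 2) + (C a + C c) * (1 + C c * y + C d * y ^ 3) * y +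
          (C a + C c) ^ 2 * (1 + C c * y + C d * y ^ 3 + x * y) +
          (C a + C c) ^ 3 * ((1 + C c * y + C d * y ^ 3) * y +
            (1 + C c * y + C d * y ^ 3) * y ^ 3 +
            x * y ^ 2 + y ^ 5) + (C b + C d) * y) * α) with hM11
  set M12 := (((C a + C c) * x * y ^ 2 + (C a + C c) ^ 3 * x * y ^ 4) +
        ((C a + C c) * (C c + C d * y ^ 2) + (C a + C c) * (1 + C c * y + C d * y ^ 3) * y +
          (C a + C c) ^ 2 * (1 + C c * y + C d * y ^ 3 + x * y) +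
          (C a + C c) ^ 3 * ((1 + C c * y + C d * y ^ 3) * y +
            (1 + C c * y + C d * y ^ 3) * y ^ 3 +
            x * y ^ 2 + y ^ 5) + (C b + C d) * y) * β) with hM12
  set M21 := ((C a + C c) * y + (C a + C c) ^ 2 * y ^ 2 +
        ((C a + C c) * (C c + C d * y ^ 2) +
          (C a + C c) ^ 2 * (1 + C c * y + C d * y ^ 3 + y ^ 2)) * α) with hM21
  set M22 := (1 + ((C a + C c) * (x + y) + (C a + C c) ^ 2 * x * y) +
        ((C a + C c) * (C c + C d * y ^ 2) +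
          (C a + C c) ^ 2 * (1 + C c * y + C d * y ^ 3 + y ^ 2)) * β) with hM22
  let M : Matrix (Fin 2) (Fin 2) (MvPowerSeries (Fin 2) F) := !![M11, M12; M21, M22]
  have hdet : IsUnit M.det := by
    rw [MvPowerSeries.isUnit_iff_constantCoeff, Matrix.det_fin_two_of]
    simp [hM11, hM12, hM21, hM22, hα0, hβ0, hx0, hy0]
  let V : GL (Fin 2) (MvPowerSeries (Fin 2) F) := Matrix.GeneralLinearGroup.mk'' M hdet
  have hV : V.1 = M := rfl
  have key : (fun i => aut (a + c) (fam a b i)) = V.1.mulVec (fam c d) := by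
    funext i
    rw [hV]
    fin_cases i
    · change aut (a + c) (X 0 ^ 3 + X 1 ^ 5 + C a * X 1 ^ 6 + C b * X 1 ^ 8) = _
      rw [map_add, map_add, map_add, map_mul, map_mul, map_pow, map_pow, map_pow, map_pow,
        aut_X0, aut_X1, aut_C, aut_C, map_add C, ← hx, ← hy, e1]
      simp [M, Matrix.mulVec, fam, dotProduct, ← hx, ← hy]
    · change aut (a + c) (X 0 ^ 2 * X 1 + X 0 * X 1 ^ 2) = _
      rw [map_add, map_mul, map_mul, map_pow, map_pow,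
        aut_X0, aut_X1, map_add C, ← hx, ← hy, e2]
      simp [M, Matrix.mulVec, fam, dotProduct, ← hx, ← hy]
  refine ⟨V⁻¹, aut (a + c), ?_⟩
  rw [key, Matrix.mulVec_mulVec]
  have : (V⁻¹ : GL (Fin 2) (MvPowerSeries (Fin 2) F)).1 * V.1 = 1 := by
    rw [← Units.val_mul, inv_mul_cancel, Units.val_one]
  rw [this, Matrix.one_mulVec]

end Pool.Agent.Results.MP_3155f9_ag.AllEquivalent
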